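import Mathlib
import Pool.Agent.H28.NormEq

set_option autoImplicit false

open Filter Topology Matrix

namespace Pool.Agent.Results.MP_3f52e1_an.NoRate

/-- the product `Aₙ Bₙ ⋯ A₁ B₁` (the sequences are indexed from `0`) -/
def P {N M : ℕ} (A : ℕ → Matrix (Fin N) (Fin M) ℝ) (B : ℕ → Matrix (Fin M) (Fin N) ℝ) :
    ℕ → Matrix (Fin N) (Fin N) ℝ
  | 0 => 1
  | n + 1 => A n * B n * P A B n

def mA : Bool → Matrix (Fin 5) (Fin 6) ℝ
  | false => !![1, 1, 0, 0, 0, 0; 0, 0, 1, 0, 0, 0; 0, 0, 0, 1, 0, 0; 0, 0, 0, 0, 1, 0;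
      0, 0, 0, 0, 0, 1]
  | true => !![1, 0, 0, 0, 0, 0; 0, 1, 1, 0, 0, 0; 0, 1, 0, 1, 0, 0; 0, 0, 0, 0, 1, 0;
      0, 0, 0, 0, 0, 1]

noncomputable def mB : Bool → Matrix (Fin 6) (Fin 5) ℝ
  | false => !![1, 0, 0, 0, 0; 0, 0, 0, 0, 0; 0, 2, 0, 0, 0; 0, 0, 1, 0, 0; 0, 0, 0, 1, 0;
      0, 0, 0, 0, 2]
  | true => !![0, 0, 0, 0, 0; 1 / 2, 0, 0, 2, -1; 0, 0, 0, 0, 0; 0, 0, 0, 0, 0; 0, 1, 0, 0, 0;
      0, 0, 1, 0, 0]

noncomputable def step (β α : Bool) (x : Fin 5 → ℝ) : Fin 5 → ℝ :=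
  if β then
    (if α then ![0, x 0 / 2 + 2 * x 3 - x 4, x 0 / 2 + 2 * x 3 - x 4, x 1, x 2]
      else ![x 0 / 2 + 2 * x 3 - x 4, 0, 0, x 1, x 2])
  else ![x 0, 2 * x 1, x 2, x 3, 2 * x 4]

lemma step_eq (β α : Bool) (x : Fin 5 → ℝ) : (mA α * mB β) *ᵥ x = step β α x := by
  rw [← mulVec_mulVec]
  cases α <;> cases β <;> ext i <;> fin_cases i <;>
    simp [mA, mB, step, mulVec, dotProduct, Fin.sum_univ_succ] <;> ring

noncomputable def orb (α β : ℕ → Bool) (v : Fin 5 → ℝ) : ℕ → Fin 5 → ℝ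
  | 0 => v
  | n + 1 => step (β n) (α n) (orb α β v n)

lemma P_vec (α β : ℕ → Bool) (v : Fin 5 → ℝ) (n : ℕ) :
    P (fun n => mA (α n)) (fun n => mB (β n)) n *ᵥ v = orb α β v n := by
  induction n with
  | zero => simp [P, orb]
  | succ n ih => rw [P, ← mulVec_mulVec, ih, step_eq, orb]

def cnt : ℕ → ℕ × ℕ
  | 0 => (0, 0)
  | n + 1 => if (cnt n).2 = (cnt n).1 then ((cnt n).1 + 1, 0) else ((cnt n).1, (cnt n).2 + 1)

def bar (n : ℕ) : Bool := decide ((cnt n).2 = (cnt n).1)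

lemma cnt_le (n : ℕ) : (cnt n).2 ≤ (cnt n).1 := by
  induction n with
  | zero => simp [cnt]
  | succ n ih => rw [cnt]; split_ifs with h <;> simp <;> omega

lemma cnt_mono : Monotone (fun n => (cnt n).1) := by
  refine monotone_nat_of_le_succ fun n => ?_
  simp only [cnt]; split_ifs <;> simp

lemma next_b (n : ℕ) : ∃ m, n ≤ m ∧ bar m = true := by
  suffices h : ∀ d n, (cnt n).1 - (cnt n).2 = d → ∃ m, n ≤ m ∧ bar m = true from h _ n rfl
  intro d
  induction d with
  | zero => intro n h; exact ⟨n, le_rfl, by have := cnt_le n; simp [bar]; omega⟩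
  | succ d ih =>
    intro n h
    obtain ⟨m, h1, h2⟩ := ih (n + 1) (by rw [cnt, if_neg (by omega)]; simp; omega)
    exact ⟨m, by omega, h2⟩

lemma cnt_tend : Tendsto (fun n => (cnt n).1) atTop atTop := by
  refine tendsto_atTop_atTop_of_monotone cnt_mono fun b => ?_
  induction b with
  | zero => exact ⟨0, Nat.zero_le _⟩
  | succ b ih =>
    obtain ⟨n, hn⟩ := ih
    obtain ⟨m, h1, h2⟩ := next_b n
    refine ⟨m + 1, ?_⟩
    have := cnt_mono h1
    simp only [bar, decide_eq_true_eq] at h2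
    simp only [cnt, if_pos h2] at this ⊢
    omega

lemma inv (α : ℕ → Bool) (v : Fin 5 → ℝ) (n : ℕ) :
    (1 ≤ (cnt n).1 → orb α bar v n 1 = 2 ^ (cnt n).2 * orb α bar v n 2) ∧
    (2 ≤ (cnt n).1 → 2 * orb α bar v n 3 * 2 ^ (cnt n).2 = 2 ^ (cnt n).1 * orb α bar v n 4) := by
  induction n with
  | zero => simp [cnt]
  | succ n ih =>
    by_cases h : (cnt n).2 = (cnt n).1
    · have hb : bar n = true := by simp [bar, h]
      simp only [cnt, if_pos h, orb, step, hb, if_true]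
      constructor
      · intro _; split_ifs <;> simp
      · intro h2
        have := ih.1 (by omega)
        split_ifs <;> simp [this, h] <;> ring
    · have hb : bar n = false := by simp [bar, h]
      simp only [cnt, if_neg h, orb, step, hb]
      constructor
      · intro h1; simp [ih.1 h1]; ring
      · intro h2
        have := ih.2 h2
        simp [pow_succ]
        linarith

lemma tval (α : ℕ → Bool) (v : Fin 5 → ℝ) (n : ℕ) (h : 2 ≤ (cnt n).1) (hb : bar n = true) :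
    2 * orb α bar v n 3 = orb α bar v n 4 := by
  have h1 := (inv α v n).2 h
  simp only [bar, decide_eq_true_eq] at hb
  rw [hb, mul_comm] at h1
  exact mul_left_cancel₀ (by positivity) h1

lemma persist (Q : ℕ → Prop) (n0 : ℕ) (h0 : Q n0) (hs : ∀ n, n0 ≤ n → Q n → Q (n + 1)) :
    ∀ n, n0 ≤ n → Q n := fun n hn => Nat.le_induction h0 hs n hn

lemma flush (α : ℕ → Bool) (v : Fin 5 → ℝ) (n0 : ℕ)
    (h : ∀ n, n0 ≤ n → orb α bar v n 1 = 0 ∧ orb α bar v n 2 = 0) :
    ∃ n1, n0 ≤ n1 ∧ ∀ n, n1 ≤ n → orb α bar v n 3 = 0 ∧ orb α bar v n 4 = 0 := by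
  obtain ⟨m, h1, h2⟩ := next_b n0
  refine ⟨m + 1, by omega, persist _ _ ?_ ?_⟩
  · simp only [orb, step, h2, if_true]
    split_ifs <;> simpa using h m h1
  · intro n hn hq
    have := h n (by omega)
    simp only [orb, step]
    split_ifs <;> simp [this, hq]

lemma stab (α : ℕ → Bool) (v : Fin 5 → ℝ) : Tendsto (orb α bar v) atTop (𝓝 0) := by
  obtain ⟨n0, hn0⟩ := eventually_atTop.1 (cnt_tend.eventually (eventually_ge_atTop 2))
  have hp : ∃ n1, n0 ≤ n1 ∧ ∀ n, n1 ≤ n → orb α bar v n 1 = 0 ∧ orb α bar v n 2 = 0 := by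
    by_cases h : ∃ n, n0 ≤ n ∧ bar n = true ∧ α n = true
    · obtain ⟨k, hk, h1, h2⟩ := h
      have he : ∀ n, k + 1 ≤ n → orb α bar v n 0 = 0 := by
        refine persist _ _ (by simp [orb, step, h1, h2]) ?_
        intro n hn hq
        simp only [orb, step]
        split_ifs with a b
        · simp
        · simp [hq, tval α v n (hn0 n (by omega)) a]
        · simp [hq]
      obtain ⟨m, h3, h4⟩ := next_b (k + 1)
      refine ⟨m + 1, by omega, persist _ _ ?_ ?_⟩
      · simp only [orb, step, h4, if_true]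
        split_ifs <;> simp [he m h3, tval α v m (hn0 m (by omega)) h4]
      · intro n hn hq
        simp only [orb, step]
        split_ifs with a b
        · simp [he n (by omega), tval α v n (hn0 n (by omega)) a]
        · simp
        · simp [hq]
    · push Not at h
      obtain ⟨m, h3, h4⟩ := next_b n0
      refine ⟨m + 1, by omega, persist _ _ ?_ ?_⟩
      · simp [orb, step, h4, h m h3 h4]
      · intro n hn hq
        simp only [orb, step]
        split_ifs with a b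
        · exact absurd b (h n (by omega) a)
        · simp
        · simp [hq]
  obtain ⟨n1, _, h1⟩ := hp
  obtain ⟨n2, h12, h2⟩ := flush α v n1 h1
  have he : ∀ n, n2 ≤ n → |orb α bar v n 0| * 2 ^ (cnt n).1 ≤
      |orb α bar v n2 0| * 2 ^ (cnt n2).1 := by
    refine persist _ _ le_rfl ?_
    intro n hn hq
    refine le_trans ?_ hq
    by_cases h : (cnt n).2 = (cnt n).1
    · have hb : bar n = true := by simp [bar, h]
      simp only [cnt, if_pos h, orb, step, hb, if_true]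
      split_ifs
      · simp
      · simp [h2 n hn, abs_div, pow_succ]
        apply le_of_eq; ring
    · have hb : bar n = false := by simp [bar, h]
      simp [cnt, if_neg h, orb, step, hb]
  have t0 : Tendsto (fun n => orb α bar v n 0) atTop (𝓝 0) := by
    have t1 : Tendsto (fun n => |orb α bar v n2 0| * 2 ^ (cnt n2).1 * (1 / 2 : ℝ) ^ (cnt n).1)
        atTop (𝓝 0) := by
      simpa using ((tendsto_pow_atTop_nhds_zero_of_lt_one (r := (1 / 2 : ℝ)) (by norm_num)
        (by norm_num)).comp cnt_tend).const_mul (|orb α bar v n2 0| * 2 ^ (cnt n2).1)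
    refine squeeze_zero_norm' ?_ t1
    filter_upwards [eventually_ge_atTop n2] with n hn
    rw [Real.norm_eq_abs, one_div, inv_pow, ← div_eq_mul_inv, le_div_iff₀ (by positivity)]
    exact he n hn
  have tz : ∀ i, (∀ n, n2 ≤ n → orb α bar v n i = 0) →
      Tendsto (fun n => orb α bar v n i) atTop (𝓝 0) := fun i hi =>
    tendsto_const_nhds.congr' (by
      filter_upwards [eventually_ge_atTop n2] with n hn using (hi n hn).symm)
  rw [tendsto_pi_nhds]
  intro i
  fin_cases i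
  · exact t0
  · exact tz 1 fun n hn => (h1 n (by omega)).1
  · exact tz 2 fun n hn => (h1 n (by omega)).2
  · exact tz 3 fun n hn => (h2 n hn).1
  · exact tz 4 fun n hn => (h2 n hn).2

def Reach (β : ℕ → Bool) (n : ℕ) (x : Fin 5 → ℝ) : Prop :=
  ∃ α : ℕ → Bool, orb α β ![1, 0, 0, 0, 0] n = x

lemma orb_congr (α α' β : ℕ → Bool) (v : Fin 5 → ℝ) (n : ℕ) (h : ∀ k < n, α k = α' k) :
    orb α β v n = orb α' β v n := by
  induction n with
  | zero => rfl
  | succ n ih => rw [orb, orb, ih (fun k hk => h k (by omega)), h n (by omega)]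

lemma Reach.step {β : ℕ → Bool} {n : ℕ} {x : Fin 5 → ℝ} (h : Reach β n x) (a : Bool) :
    Reach β (n + 1) (step (β n) a x) := by
  obtain ⟨α, rfl⟩ := h
  refine ⟨Function.update α n a, ?_⟩
  rw [orb, Function.update_self,
    orb_congr _ α _ _ _ (fun k hk => Function.update_of_ne (by omega) _ _)]

lemma Reach.run {β : ℕ → Bool} {n : ℕ} {e p1 p2 q1 q2 : ℝ} (h : Reach β n ![e, p1, p2, q1, q2])
    (g : ℕ) (hg : ∀ k < g, β (n + k) = false) :
    Reach β (n + g) ![e, 2 ^ g * p1, p2, q1, 2 ^ g * q2] := by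
  induction g with
  | zero => simpa using h
  | succ g ih =>
    have := (ih fun k hk => hg k (by omega)).step false
    rw [hg g (by omega)] at this
    have e : NoRate.step false false ![e, 2 ^ g * p1, p2, q1, 2 ^ g * q2] =
        ![e, 2 ^ (g + 1) * p1, p2, q1, 2 ^ (g + 1) * q2] := by
      ext i; fin_cases i <;> simp [NoRate.step, pow_succ] <;> ring
    rwa [e] at this

lemma gap (β : ℕ → Bool) (n : ℕ) : (∀ k, β (n + k) = false) ∨
    ∃ g, β (n + g) = true ∧ ∀ k < g, β (n + k) = false := by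
  by_cases h : ∃ g, β (n + g) = true
  · right
    exact ⟨Nat.find h, Nat.find_spec h, fun k hk => by simpa using Nat.find_min h hk⟩
  · left; simpa using h

def Good (β : ℕ → Bool) (n : ℕ) : Prop :=
  ∃ (r : ℕ) (m : ℝ), (∀ a : Bool, Reach β n (if a then ![0, m, m, 0, 0] else ![m, 0, 0, 0, 0])) ∧
    1 ≤ 2 * |m| * 2 ^ r ∧ r ^ 2 ≤ 2 * n ∧ ∀ k < r, β (n + k) = false

def Final (β : ℕ → Bool) : Prop :=
  ∃ m : ℝ, m ≠ 0 ∧ ∃ n0, ∀ g, Reach β (n0 + g) ![m, 0, 0, 0, 0]

lemma final_of {β : ℕ → Bool} {n : ℕ} {m : ℝ} (hm : m ≠ 0) (h : Reach β n ![m, 0, 0, 0, 0])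
    (hb : ∀ k, β (n + k) = false) : Final β :=
  ⟨m, hm, n, fun g => by simpa using h.run g (fun k _ => hb k)⟩

lemma bstep {β : ℕ → Bool} {n : ℕ} {e q1 q2 : ℝ} (h : Reach β n ![e, 0, 0, q1, q2])
    (hb : β n = true) (a : Bool) : Reach β (n + 1)
      (if a then ![0, e / 2 + 2 * q1 - q2, e / 2 + 2 * q1 - q2, 0, 0]
        else ![e / 2 + 2 * q1 - q2, 0, 0, 0, 0]) := by
  have := h.step a
  rw [hb] at this
  simpa [NoRate.step] using this

lemma pow_gap {g g' : ℕ} (h : g' ≠ g + 1) : (2 : ℝ) ^ g ≤ |2 * 2 ^ g - 2 ^ g'| := by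
  rcases Nat.lt_or_gt_of_ne h with h | h
  · have : (2 : ℝ) ^ g' ≤ 2 ^ g := pow_le_pow_right₀ one_le_two (by omega)
    exact le_trans (by linarith) (le_abs_self _)
  · have : (2 : ℝ) ^ (g + 2) ≤ 2 ^ g' := pow_le_pow_right₀ one_le_two (by omega)
    have h2 : (0 : ℝ) < 2 ^ g := by positivity
    rw [pow_add] at this
    exact le_trans (by linarith) (neg_le_abs _)

lemma progress {β : ℕ → Bool} {n : ℕ} (h : Good β n) : Final β ∨ ∃ n', n < n' ∧ Good β n' := by
  obtain ⟨r, m, hr, h1, h2, h3⟩ := h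
  have hm : m ≠ 0 := by rintro rfl; norm_num at h1
  have r0 : Reach β n ![m, 0, 0, 0, 0] := hr false
  have r1 : Reach β n ![0, m, m, 0, 0] := hr true
  rcases gap β n with hb | ⟨g, hg, hg'⟩
  · exact Or.inl (final_of hm r0 hb)
  have hrg : r ≤ g := by
    by_contra hc
    have := h3 g (by omega)
    simp [hg] at this
  have w : ∀ a : Bool, Reach β (n + g + 1)
      (if a then ![0, m / 2, m / 2, 0, 0] else ![m / 2, 0, 0, 0, 0]) := fun a => by
    have := r0.run g hg'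
    simp only [mul_zero] at this
    simpa using bstep this hg a
  rcases gap β (n + g + 1) with hb | ⟨g', hk, hk'⟩
  · exact Or.inl (final_of (by simpa using hm) (w false) hb)
  right
  by_cases hgg : g' = g + 1
  · refine ⟨n + g + 1, by omega, r + 1, m / 2, w, ?_, by nlinarith, fun k hk => hk' k (by omega)⟩
    rw [abs_div, abs_two, pow_succ]
    linarith
  · have a1 := (r1.run g hg').step false
    rw [hg] at a1
    have a2 : Reach β (n + g + 1) ![0, 0, 0, 2 ^ g * m, m] := by simpa [NoRate.step] using a1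
    have a3 := a2.run g' hk'
    simp only [mul_zero] at a3
    refine ⟨n + g + 1 + g' + 1, by omega, 0, _, bstep a3 hk, ?_, by simp, by simp⟩
    rw [show (0 : ℝ) / 2 + 2 * (2 ^ g * m) - 2 ^ g' * m = (2 * 2 ^ g - 2 ^ g') * m by ring, abs_mul]
    have b1 := pow_gap hgg
    have b2 : (2 : ℝ) ^ r ≤ 2 ^ g := pow_le_pow_right₀ one_le_two hrg
    have b3 := abs_nonneg m
    nlinarith

lemma slow (β : ℕ → Bool) : ∃ c : ℝ, 0 < c ∧ ∀ T, ∃ n, T ≤ n ∧ ∃ (r : ℕ) (m : ℝ),
    Reach β n ![m, 0, 0, 0, 0] ∧ r ^ 2 ≤ 2 * n ∧ c ≤ |m| * 2 ^ r := by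
  by_cases hF : Final β
  · obtain ⟨m, hm, n0, h⟩ := hF
    exact ⟨|m|, abs_pos.2 hm, fun T => ⟨n0 + T, by omega, 0, m, h T, by simp, by simp⟩⟩
  have r0 : Reach β 0 ![1, 0, 0, 0, 0] := ⟨fun _ => false, rfl⟩
  have g0 : ∃ n, Good β n := by
    rcases gap β 0 with hb | ⟨g, hg, hg'⟩
    · exact absurd (final_of one_ne_zero r0 hb) hF
    · have := r0.run g hg'
      simp only [mul_zero] at this
      exact ⟨0 + g + 1, 0, _, bstep this hg, by norm_num, by simp, by simp⟩
  have all : ∀ T, ∃ n, T ≤ n ∧ Good β n := by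
    intro T
    induction T with
    | zero => obtain ⟨n, h⟩ := g0; exact ⟨n, Nat.zero_le _, h⟩
    | succ T ih =>
      obtain ⟨n, h1, h2⟩ := ih
      obtain ⟨n', h3, h4⟩ := (progress h2).resolve_left hF
      exact ⟨n', by omega, h4⟩
  refine ⟨1 / 2, by norm_num, fun T => ?_⟩
  obtain ⟨n, h1, r, m, hr, h2, h3, _⟩ := all T
  exact ⟨n, h1, r, m, hr false, h3, by linarith⟩

lemma small (l ε : ℝ) (h0 : 0 < l) (h1 : l < 1) (hε : 0 < ε) :
    ∃ T, ∀ n, T ≤ n → ∀ r : ℕ, r ^ 2 ≤ 2 * n → l ^ n * 2 ^ r < ε := by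
  obtain ⟨k, hk⟩ := exists_pow_lt_of_lt_one (show (0 : ℝ) < 1 / 4 by norm_num) h1
  obtain ⟨T, hT⟩ := exists_pow_lt_of_lt_one (show (0 : ℝ) < ε ^ 2 by positivity) h1
  refine ⟨max T (2 * k ^ 2), fun n hn r hr => ?_⟩
  have a1 : T ≤ n := le_of_max_le_left hn
  have a2 : 2 * k ^ 2 ≤ n := le_of_max_le_right hn
  have a3 : k * r ≤ n := by
    have : (k * r) ^ 2 ≤ n ^ 2 := by nlinarith
    exact (Nat.pow_le_pow_iff_left (by norm_num)).1 this
  have b1 : l ^ n ≤ (1 / 4) ^ r := by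
    refine (pow_le_pow_of_le_one h0.le h1.le a3).trans ?_
    rw [pow_mul]
    exact pow_le_pow_left₀ (by positivity) hk.le r
  have b2 : l ^ n < ε ^ 2 := (pow_le_pow_of_le_one h0.le h1.le a1).trans_lt hT
  have b3 : (1 / 4 : ℝ) ^ r * (2 ^ r) ^ 2 = 1 := by
    rw [← pow_mul, mul_comm r 2, pow_mul, ← mul_pow]; norm_num
  refine lt_of_pow_lt_pow_left₀ 2 hε.le ?_
  have b4 : 0 < l ^ n := by positivity
  calc (l ^ n * 2 ^ r) ^ 2 = l ^ n * (l ^ n * (2 ^ r) ^ 2) := by ring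
    _ ≤ l ^ n * ((1 / 4) ^ r * (2 ^ r) ^ 2) := by gcongr
    _ < ε ^ 2 := by rw [b3, mul_one]; exact b2

theorem result : ∃ (N M : ℕ) (𝒜 : Finset (Matrix (Fin N) (Fin M) ℝ))
    (ℬ : Finset (Matrix (Fin M) (Fin N) ℝ)), 1 ≤ N ∧ 1 ≤ M ∧ 𝒜.Nonempty ∧ ℬ.Nonempty ∧
    ∀ ν : Seminorm ℝ (Matrix (Fin N) (Fin N) ℝ), (∀ X, ν X = 0 → X = 0) →
      (∃ B : ℕ → Matrix (Fin M) (Fin N) ℝ, (∀ n, B n ∈ ℬ) ∧
        ∀ A : ℕ → Matrix (Fin N) (Fin M) ℝ, (∀ n, A n ∈ 𝒜) →
          Tendsto (fun n => ν (P A B n)) atTop (𝓝 0)) ∧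
      ∀ B : ℕ → Matrix (Fin M) (Fin N) ℝ, (∀ n, B n ∈ ℬ) → ∀ C l : ℝ, 0 < C → 0 < l → l < 1 →
        ∃ A : ℕ → Matrix (Fin N) (Fin M) ℝ, (∀ n, A n ∈ 𝒜) ∧
          ∃ n, 1 ≤ n ∧ C * l ^ n < ν (P A B n) := by
  classical
  refine ⟨5, 6, Finset.univ.image mA, Finset.univ.image mB, by norm_num, by norm_num, by simp,
    by simp, fun ν hν => ⟨⟨fun n => mB (bar n),
      fun n => Finset.mem_image_of_mem _ (Finset.mem_univ _), fun A hA => ?_⟩,
      fun B hB C l hC h0 h1 => ?_⟩⟩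
  · simp only [Finset.mem_image, Finset.mem_univ, true_and] at hA
    choose α hα using hA
    obtain rfl : A = fun n => mA (α n) := funext fun n => (hα n).symm
    obtain ⟨K, hK, hle⟩ := Pool.Agent.H28.NormEq.upper ν
    have ent : ∀ r s, Tendsto (fun n => |P (fun n => mA (α n)) (fun n => mB (bar n)) n r s|)
        atTop (𝓝 0) := by
      intro r s
      have := (tendsto_pi_nhds.1 (stab α (Pi.single s 1)) r).abs
      simp only [← P_vec, mulVec_single_one, Pi.zero_apply, abs_zero] at this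
      exact this
    have tot := (tendsto_finset_sum Finset.univ fun r _ =>
      tendsto_finset_sum Finset.univ fun s _ => ent r s).const_mul K
    simp only [Finset.sum_const_zero, mul_zero] at tot
    refine squeeze_zero (fun n => apply_nonneg _ _) (fun n => hle _ _ fun r s => ?_) tot
    refine le_trans ?_ (Finset.single_le_sum (f := fun r => ∑ s,
      |P (fun n => mA (α n)) (fun n => mB (bar n)) n r s|) (fun _ _ => by positivity)
      (Finset.mem_univ r))
    exact Finset.single_le_sum (f := fun s =>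
      |P (fun n => mA (α n)) (fun n => mB (bar n)) n r s|) (fun _ _ => by positivity)
      (Finset.mem_univ s)
  · simp only [Finset.mem_image, Finset.mem_univ, true_and] at hB
    choose β hβ using hB
    obtain rfl : B = fun n => mB (β n) := funext fun n => (hβ n).symm
    obtain ⟨c, hc, hle⟩ := Pool.Agent.H28.NormEq.lower ν hν
    obtain ⟨c', hc', hs⟩ := slow β
    obtain ⟨T, hT⟩ := small l (c * c' / C) h0 h1 (by positivity)
    obtain ⟨n, hn, r, m, ⟨α, hα⟩, hr, hm⟩ := hs (T + 1)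
    refine ⟨fun n => mA (α n), fun n => Finset.mem_image_of_mem _ (Finset.mem_univ _), n,
      by omega, ?_⟩
    have e : P (fun n => mA (α n)) (fun n => mB (β n)) n 0 0 = m := by
      have := congrFun ((P_vec α β _ n).trans hα) 0
      simpa [mulVec, dotProduct, Fin.sum_univ_succ] using this
    have a1 := hle (P (fun n => mA (α n)) (fun n => mB (β n)) n) 0 0
    have a2 := hT n (by omega) r hr
    rw [e] at a1
    rw [lt_div_iff₀ hC] at a2
    refine lt_of_lt_of_le ?_ a1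
    have a3 : (0 : ℝ) < 2 ^ r := by positivity
    refine lt_of_mul_lt_mul_right ?_ a3.le
    nlinarith

end Pool.Agent.Results.MP_3f52e1_an.NoRate
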